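import Pool.Agent.helper19.QP.SpecS
import Pool.Agent.helper43.LQ.HRC
import Pool.Agent.helper64.LQ.ALG

/-!
# Row HCM of project qp
-/

set_option autoImplicit false

open Finset

noncomputable section

namespace Pool.Agent.QP

open Pool.Agent.helper7.IG (kk LL sig DDk MM im2 ps Vx Nb Frame)
open Pool.Agent.LQ (FF DD)
open Pool.Agent.EP (KK ww vvx WW JG ac pp IsT)

/-- the positive part of the series with the coefficients `jc` -/
def HCM_f : FF := PowerSeries.mk fun m => if 0 < m then jc m else 0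

theorem HCM_pos (a b d : ℕ) (ha : 0 < a) (hb : 0 < b) (hd : d ∈ (Nat.gcd a b).divisors) :
    0 < a * b / d ^ 2 := by
  have h1 := Nat.dvd_of_mem_divisors hd
  obtain ⟨a', rfl⟩ := h1.trans (Nat.gcd_dvd_left a b)
  obtain ⟨b', rfl⟩ := h1.trans (Nat.gcd_dvd_right (d * a') b)
  have hd0 : 0 < d := Nat.pos_of_mul_pos_right ha
  have ha' : 0 < a' := Nat.pos_of_mul_pos_left ha
  have hb' : 0 < b' := Nat.pos_of_mul_pos_left hb
  rw [show d * a' * (d * b') = a' * b' * d ^ 2 by ring, Nat.mul_div_cancel _ (by positivity)]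
  positivity

theorem HCM_JG (n m : ℕ) (hn : 0 < n) (hm : 0 < m) :
    PowerSeries.coeff m (Pool.Agent.LQ.T n HCM_f) = JG jc n (m : ℤ) := by
  rw [Pool.Agent.LQ.coeff_T]
  unfold JG
  have hset : (Nat.gcd m n).divisors = n.divisors.filter (fun d : ℕ => (d : ℤ) ∣ (m : ℤ)) := by
    ext d
    rw [Nat.mem_divisors, mem_filter, Nat.mem_divisors, Int.natCast_dvd_natCast, Nat.dvd_gcd_iff]
    constructor
    · rintro ⟨⟨h1, h2⟩, -⟩
      exact ⟨⟨h2, hn.ne'⟩, h1⟩
    · rintro ⟨⟨h1, -⟩, h2⟩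
      exact ⟨⟨h2, h1⟩, (Nat.gcd_pos_of_pos_left _ hm).ne'⟩
  rw [← hset]
  refine Finset.sum_congr rfl fun d hd => ?_
  unfold HCM_f
  rw [PowerSeries.coeff_mk, if_pos (HCM_pos m n d hm hn hd)]
  congr 1
  push_cast
  rw [mul_comm]

theorem HCM_comm (a n : ℕ) (ha : 0 < a) (hn : 0 < n) (f : FF) :
    Pool.Agent.LQ.T a (Pool.Agent.LQ.T n f) = Pool.Agent.LQ.T n (Pool.Agent.LQ.T a f) := by
  have hN : 1 < a * n + 1 := by
    have := Nat.mul_pos ha hn
    omega
  have h1 : a.Coprime (a * n + 1) := by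
    rw [Nat.coprime_mul_left_add_right]
    exact Nat.coprime_one_right a
  have h2 : n.Coprime (a * n + 1) := by
    rw [mul_comm, Nat.coprime_mul_left_add_right]
    exact Nat.coprime_one_right n
  have hA : Pool.Agent.LQ.T a ∈ Pool.Agent.LQ.TT (a * n + 1) := Submodule.subset_span ⟨a, h1, rfl⟩
  have hB : Pool.Agent.LQ.T n ∈ Pool.Agent.LQ.TT (a * n + 1) := Submodule.subset_span ⟨n, h2, rfl⟩
  have h3 := ((Pool.Agent.LQ.ALG Pool.Agent.LQ.HRC _ hN).2 _ hA _ hB).2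
  exact congrArg (fun L : Module.End (ZMod 2) FF => L f) h3

theorem HCM : HCM_stmt := by
  intro a b n ha hb hn
  have h1 : ∑ d ∈ (Nat.gcd a b).divisors, JG jc n ((a * b / d ^ 2 : ℕ) : ℤ) =
      PowerSeries.coeff b (Pool.Agent.LQ.T a (Pool.Agent.LQ.T n HCM_f)) := by
    rw [Pool.Agent.LQ.coeff_T, Nat.gcd_comm b a, mul_comm b a]
    refine Finset.sum_congr rfl fun d hd => ?_
    rw [HCM_JG n _ hn (HCM_pos a b d ha hb hd)]
  have h2 : ∑ e ∈ (Nat.gcd n b).divisors, JG jc a ((n * b / e ^ 2 : ℕ) : ℤ) =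
      PowerSeries.coeff b (Pool.Agent.LQ.T n (Pool.Agent.LQ.T a HCM_f)) := by
    rw [Pool.Agent.LQ.coeff_T, Nat.gcd_comm b n, mul_comm b n]
    refine Finset.sum_congr rfl fun d hd => ?_
    rw [HCM_JG a _ ha (HCM_pos n b d hn hb hd)]
  rw [h1, h2, HCM_comm a n ha hn]

end Pool.Agent.QP
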