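import Pool.Agent.helper19.QP.SpecS
import Pool.Agent.helper72.LQ.SEL6

/-!
# Row SGA of project qp
-/

set_option autoImplicit false

open Finset

noncomputable section

namespace Pool.Agent.QP

theorem SGA_KQ (c : ℕ → ZMod 2) (μ lam m : ℕ) :
    ∑ x ∈ Pool.Agent.LQ.SEL6_S m μ lam m, c (x.1 * x.2) = KQ c μ lam m := by
  unfold KQ
  apply Finset.sum_congr _ (fun _ _ => rfl)
  ext x
  rw [Pool.Agent.LQ.SEL6_mem, mem_filter, mem_product, mem_Icc, mem_Icc]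
  constructor
  · rintro ⟨h1, h2, h3, h4, h5⟩
    exact ⟨⟨⟨h3, by omega⟩, ⟨h4, by omega⟩⟩, h5⟩
  · rintro ⟨⟨⟨h1, h2⟩, ⟨h3, h4⟩⟩, h5⟩
    exact ⟨by omega, by omega, h1, h3, h5⟩

theorem SGA : SGA_stmt := by
  intro c m hm
  rw [Pool.Agent.LQ.SEL6_step1 m hm c, Pool.Agent.LQ.SEL6_step2 m m le_rfl hm c, SGA_KQ, SGA_KQ]

end Pool.Agent.QP
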