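import Pool.Agent.helper31.QP.SpecE

/-!
# Row QPA of project qp
-/

set_option autoImplicit false

open Finset

noncomputable section

namespace Pool.Agent.QP

open Pool.Agent.helper7.IG (kk LL sig DDk MM im2 ps Vx Nb Frame incl)
open Pool.Agent.EP (KK ww vvx WW JG ac pp IsT JW_stmt JN_stmt WM_stmt)

theorem QPA_two : ∀ x e : ZMod 2, x ≠ e → x = e + 1 := by decide

theorem QPA (hFRM : FRM_stmt) (hCFM : CFM_stmt) (hRDC : RDC_stmt) (hPER : PER_stmt)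
    (hCON : CON_stmt) : QPLUS_stmt := by
  intro S hS hS23 N hN e hfin
  obtain ⟨m₀, hm₀⟩ := hfin.bddAbove
  obtain ⟨A, K, hK, hKne, hcoef⟩ := hFRM S hS hS23
  obtain ⟨R, hsq, hR6, hcop⟩ := hRDC S N (fun D hD h => by
    have := hS23 D hD
    omega) (by omega)
  refine hCON A K R (e + 1) hK hKne hsq hR6 ?_
  refine hPER (fK A K) R m₀ (e + 1) hsq.ne_zero ?_
  intro m hm h6 hR
  obtain ⟨hmN, hmD⟩ := hcop m h6 hR
  rw [hcoef]
  have h1 : ∑ D ∈ S, JG ac D ((m : ℤ) ^ 2) =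
      ∑ D ∈ S, (Fintype.card (Nat.Partition ((D * m ^ 2 + 1) / 24)) : ZMod 2) :=
    Finset.sum_congr rfl fun D hD => hCFM D m (hS23 D hD) h6 (hmD D hD)
  rw [h1]
  apply QPA_two
  intro h2
  have h3 := hm₀ (show m ∈ {m : ℕ | m.Coprime (6 * N) ∧
      (∑ D ∈ S, (Fintype.card (Nat.Partition ((D * m ^ 2 + 1) / 24)) : ZMod 2)) = e} from
    ⟨Nat.Coprime.mul_right h6 hmN, h2⟩)
  omega

end Pool.Agent.QP
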